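import Pool.Agent.H43.MumfordFinal

/-!
# A locally compact Mumford group that is not a generalized Heisenberg group

Full (affirmative) answer to Q1 of MP_9969af_al.  The definitions `IsMumfordGroup`, `GenHeis` and
`IsGeneralizedHeisenberg` are in `Pool/Agent/H43/MumfordDefs.lean`.

Idea of the proof.  For an odd prime `p` let `F_p = (ℤ/p⁸)² × (ℤ/p⁴)²` with its standard
alternating form, with basis `u₁, v₁, u₂, v₂`, and let `L_p` be the Lagrangian subgroup generated
by `p² v₂`, `p⁴ u₁ - p² u₂ + p v₂` and `p² v₁ + v₂`.  No decomposition of `F_p` into two isotropic
subgroups is compatible with `L_p`.  Let `K` be the restricted product of the `F_p` with respect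
to the `L_p`, over all odd primes.  The product of the local forms is a continuous alternating
bicharacter on `K`, and (as all `p` are odd) it is also a cocycle whose commutator pairing is a
symplectic self-duality of `K`.  The twisted product of the circle and `K` is a Mumford group.
If it were a generalized Heisenberg group, then `K` would have a continuous idempotent
endomorphism with isotropic image and kernel, which by continuity would preserve `L_p` for
almost all `p`: a contradiction.
-/

namespace Pool.Agent.Results.MP_9969af_al.MumfordNotHeisenberg

open Pool.Agent.H43.Mumford

universe u v w

/-- There is a locally compact Hausdorff group `G` that is a Mumford group with centre isomorphic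
to the circle group, and that is not isomorphic, as a topological group, to a generalized
Heisenberg group. -/
theorem result :
    ∃ (G : Type) (_ : Group G) (_ : TopologicalSpace G) (_ : IsTopologicalGroup G),
      T2Space G ∧ LocallyCompactSpace G ∧ IsMumfordGroup G ∧
        ¬ IsGeneralizedHeisenberg.{u, v, w} G :=
  main.{u, v, w}

end Pool.Agent.Results.MP_9969af_al.MumfordNotHeisenberg
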